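import Pool.Agent.Helper17.SA.St

/-!
# SA MODULE GDT: the trinomial bound satisfies Good
-/

set_option autoImplicit false

namespace Pool.Agent.Helper2.SA

open Equiv Pool.Agent.Helper17.SA

theorem gdt_sum (hT1 : StT1) (a n1 n2 n k : ℕ) (h : n1 + n2 ≤ n) :
    ∑ i ∈ Finset.range (k + 1),
      (if i ≤ n1 ∧ k - i ≤ n2 then (a ^ i * T n1 i) * (a ^ (k - i) * T n2 (k - i)) else 0) ≤
      a ^ k * T n k := by
  obtain ⟨hv, hm, _, _⟩ := hT1
  have h1 : ∑ i ∈ Finset.range (k + 1),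
      (if i ≤ n1 ∧ k - i ≤ n2 then (a ^ i * T n1 i) * (a ^ (k - i) * T n2 (k - i)) else 0) ≤
      ∑ i ∈ Finset.range (k + 1), a ^ k * (T n1 i * T n2 (k - i)) := by
    apply Finset.sum_le_sum
    intro i hi
    have hik : i ≤ k := by
      have := Finset.mem_range.mp hi
      omega
    have he : (a ^ i * T n1 i) * (a ^ (k - i) * T n2 (k - i)) = a ^ k * (T n1 i * T n2 (k - i)) := by
      have : a ^ k = a ^ i * a ^ (k - i) := by
        rw [← pow_add]
        congr 1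
        omega
      rw [this]
      ring
    split_ifs
    · exact he.le
    · exact Nat.zero_le _
  refine h1.trans ?_
  rw [← Finset.mul_sum, hv]
  exact Nat.mul_le_mul_left _ (hm _ _ _ h)

theorem gdt_four (hT1 : StT1) (hT2 : StT2) (q l : ℕ) (hq : 1 ≤ q) (hl : 1 ≤ l) :
    T q q * T l l + 2 ^ (q + l - 1) ≤ T (q + l) (q + l) := by
  obtain ⟨hv, _, _, _⟩ := hT1
  obtain ⟨hs, hb⟩ := hT2
  obtain ⟨r, rfl⟩ : ∃ r, q = r + 1 := ⟨q - 1, by omega⟩
  obtain ⟨s, rfl⟩ : ∃ s, l = s + 1 := ⟨l - 1, by omega⟩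
  rw [← hv (r + 1) (s + 1) (r + 1 + (s + 1))]
  have hsub : ({r, r + 1, r + 2} : Finset ℕ) ⊆ Finset.range (r + 1 + (s + 1) + 1) := by
    intro x hx
    simp only [Finset.mem_insert, Finset.mem_singleton] at hx
    rw [Finset.mem_range]
    omega
  refine le_trans ?_ (Finset.sum_le_sum_of_subset hsub)
  have hsum : ∑ x ∈ ({r, r + 1, r + 2} : Finset ℕ), T (r + 1) x * T (s + 1) (r + 1 + (s + 1) - x) =
      T (r + 1) r * T (s + 1) (s + 2) + (T (r + 1) (r + 1) * T (s + 1) (s + 1) +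
        T (r + 1) (r + 2) * T (s + 1) s) := by
    rw [Finset.sum_insert, Finset.sum_insert, Finset.sum_singleton]
    · have e1 : r + 1 + (s + 1) - r = s + 2 := by omega
      have e2 : r + 1 + (s + 1) - (r + 1) = s + 1 := by omega
      have e3 : r + 1 + (s + 1) - (r + 2) = s := by omega
      rw [e1, e2, e3]
    · simp
    · simp
  rw [hsum, hs r, hs s]
  have h1 := Nat.mul_le_mul (hb r) (hb s)
  have h2 : 2 ^ (r + 1 + (s + 1) - 1) = 2 * (2 ^ r * 2 ^ s) := by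
    have : r + 1 + (s + 1) - 1 = r + s + 1 := by omega
    rw [this, pow_succ, pow_add]
    ring
  rw [h2]
  omega

theorem pGDT : StT1 → StT2 → StGDT := by
  intro hT1 hT2 p N hp
  have hp2 := hp.two_le
  have hT0 : ∀ n, T n 0 = 1 := hT1.2.2.1
  refine ⟨?_, ?_, ?_, ?_⟩
  · intro n _
    rw [RT, hT0]
    simp
  · intro n1 n2 n k h _
    exact gdt_sum hT1 (p - 1) n1 n2 n k h
  · intro _
    simp [RT, T]
  · intro i hi _
    obtain ⟨j, rfl⟩ : ∃ j, i = j + 1 := ⟨i - 1, by omega⟩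
    have hq1 : 1 ≤ p ^ j := Nat.one_le_pow _ _ (by omega)
    have hn : p ^ (j + 1) = p * p ^ j := by rw [pow_succ]; ring
    have hl1 : p ^ j + 1 ≤ p ^ (j + 1) := by
      rw [hn]
      nlinarith
    have hj : j + 1 - 1 = j := by omega
    rw [hj]
    obtain ⟨l, hl⟩ : ∃ l, p ^ (j + 1) = p ^ j + l := ⟨p ^ (j + 1) - p ^ j, by omega⟩
    have hl1' : 1 ≤ l := by omega
    have hsub : p ^ (j + 1) - p ^ j = l := by omega
    rw [hsub, hl]
    set q := p ^ j with hqd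
    have h4 := gdt_four hT1 hT2 q l hq1 hl1'
    unfold RT
    have e1 : (p - 1) ^ q * T q q * ((p - 1) ^ l * T l l) = (p - 1) ^ (q + l) * (T q q * T l l) := by
      rw [pow_add]
      ring
    rw [e1]
    have h5 : (p - 1) * p ^ (q + l - 1) ≤ (p - 1) ^ (q + l) * 2 ^ (q + l - 1) := by
      obtain ⟨t, ht⟩ : ∃ t, q + l = t + 1 := ⟨q + l - 1, by omega⟩
      rw [ht]
      have e2 : (p - 1) ^ (t + 1) * 2 ^ (t + 1 - 1) = (p - 1) * ((p - 1) * 2) ^ t := by
        rw [Nat.add_sub_cancel, mul_pow, pow_succ]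
        ring
      rw [e2, Nat.add_sub_cancel]
      apply Nat.mul_le_mul_left
      apply Nat.pow_le_pow_left
      omega
    calc (p - 1) ^ (q + l) * (T q q * T l l) + (p - 1) * p ^ (q + l - 1)
        ≤ (p - 1) ^ (q + l) * (T q q * T l l) + (p - 1) ^ (q + l) * 2 ^ (q + l - 1) := by omega
      _ = (p - 1) ^ (q + l) * (T q q * T l l + 2 ^ (q + l - 1)) := by ring
      _ ≤ (p - 1) ^ (q + l) * T (q + l) (q + l) := Nat.mul_le_mul_left _ h4

end Pool.Agent.Helper2.SA
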