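import Pool.Agent.Helper17.SA.St

/-!
# SA MODULE S6: 3-subgroups of Perm (Fin 6)
-/

set_option autoImplicit false

namespace Pool.Agent.Helper2.SA

open Equiv Pool.Agent.Helper17.SA

/-- the type of an element of order 3 -/
theorem s6_type (z : Perm (Fin 6)) (hz : orderOf z = 3) :
    ∃ k, 1 ≤ k ∧ k ≤ 2 ∧ z.cycleType = Multiset.replicate k 3 := by
  obtain ⟨n, hn⟩ := Perm.cycleType_prime_order (σ := z) (by rw [hz]; exact Nat.prime_three)
  rw [hz] at hn
  refine ⟨n + 1, by omega, ?_, hn⟩
  have h1 := z.sum_cycleType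
  have h2 : z.support.card ≤ 6 := by
    have := Finset.card_le_univ z.support
    simpa using this
  rw [hn, Multiset.sum_replicate, smul_eq_mul] at h1
  omega

/-- the centralizer of an element of order 3 has order 18 -/
theorem s6_cent (z : Perm (Fin 6)) (hz : orderOf z = 3) :
    Nat.card (Subgroup.centralizer ({z} : Set (Perm (Fin 6)))) = 18 := by
  obtain ⟨k, hk1, hk2, hk⟩ := s6_type z hz
  rw [Equiv.Perm.nat_card_centralizer, hk]
  have : k = 1 ∨ k = 2 := by omega
  rcases this with h | h
  · subst h
    simp [Nat.factorial]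
  · subst h
    simp [Nat.factorial]

/-- number of solutions of `x y = z x` -/
theorem s6_fib (y z : Perm (Fin 6)) (hy : orderOf y = 3) :
    Nat.card {x : Perm (Fin 6) // x * y * x⁻¹ = z} ≤ 18 := by
  by_cases hne : Nonempty {x : Perm (Fin 6) // x * y * x⁻¹ = z}
  · obtain ⟨x1, hx1⟩ := hne
    rw [← s6_cent y hy]
    apply Nat.card_le_card_of_injective
      (fun x : {x : Perm (Fin 6) // x * y * x⁻¹ = z} =>
        (⟨x1⁻¹ * x.1, by
          rw [Subgroup.mem_centralizer_singleton_iff]
          have h1 : x.1 * y = z * x.1 := by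
            have h0 : x.1 * y * x.1⁻¹ = z := x.2
            calc x.1 * y = (x.1 * y * x.1⁻¹) * x.1 := by group
              _ = z * x.1 := by rw [h0]
          have h2 : x1⁻¹ * z = y * x1⁻¹ := by
            rw [← hx1]
            group
          first
            | (calc x1⁻¹ * x.1 * y = x1⁻¹ * (x.1 * y) := by group
                _ = x1⁻¹ * z * x.1 := by rw [h1]; group
                _ = y * (x1⁻¹ * x.1) := by rw [h2]; group)
            | (symm
               calc x1⁻¹ * x.1 * y = x1⁻¹ * (x.1 * y) := by group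
                _ = x1⁻¹ * z * x.1 := by rw [h1]; group
                _ = y * (x1⁻¹ * x.1) := by rw [h2]; group)⟩ :
          Subgroup.centralizer ({y} : Set (Perm (Fin 6)))))
    intro a b hab
    have h1 := congrArg Subtype.val hab
    have h2 : x1⁻¹ * a.1 = x1⁻¹ * b.1 := h1
    exact Subtype.ext (mul_left_cancel h2)
  · have := not_nonempty_iff.mp hne
    rw [Nat.card_of_isEmpty]
    omega

/-- elements of 3-power order commuting with an element of order 3 of `H` are in `H` -/
theorem s6_mem (H : Subgroup (Perm (Fin 6))) (hH : Nat.card H = 9)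
    (hcomm : ∀ a ∈ H, ∀ b ∈ H, a * b = b * a)
    (z : Perm (Fin 6)) (hz : z ∈ H) (hz3 : orderOf z = 3) (w : Perm (Fin 6))
    (hw : w * z = z * w) (hw9 : w ^ 9 = 1) : w ∈ H := by
  set C := Subgroup.centralizer ({z} : Set (Perm (Fin 6))) with hC
  have hHC : H ≤ C := by
    intro a ha
    rw [hC, Subgroup.mem_centralizer_singleton_iff]
    exact hcomm _ ha _ hz
  have hwC : w ∈ C := by
    rw [hC, Subgroup.mem_centralizer_singleton_iff]
    exact hw
  have hidx : (H.subgroupOf C).index = 2 := by
    have h2 := Subgroup.card_mul_index (H.subgroupOf C)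
    have h3 : Nat.card (H.subgroupOf C) = Nat.card H :=
      Nat.card_congr (Subgroup.subgroupOfEquivOfLe hHC).toEquiv
    rw [h3, hH, hC, s6_cent z hz3] at h2
    rw [hC]
    omega
  have hsq := Subgroup.sq_mem_of_index_two hidx (⟨w, hwC⟩ : C)
  have hsq' : w ^ 2 ∈ H := by
    rw [Subgroup.mem_subgroupOf] at hsq
    simpa using hsq
  have h5 : w = (w ^ 2) ^ 5 := by
    rw [← pow_mul]
    have : w ^ (2 * 5) = w ^ 9 * w := by
      rw [← pow_succ]
    rw [this, hw9, one_mul]
  rw [h5]
  exact H.pow_mem hsq' 5

theorem pS6 : StUB → StCNT → StGDX → StS6 := by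
  intro hUB hCNT hGDX H hH
  have hcard : Nat.card H ∣ 720 := by
    have h1 := Subgroup.card_subgroup_dvd_card H
    have h2 : Nat.card (Perm (Fin 6)) = 720 := by
      rw [Nat.card_eq_fintype_card, Fintype.card_perm, Fintype.card_fin]
      rfl
    rwa [h2] at h1
  have : Fact (Nat.Prime 3) := ⟨Nat.prime_three⟩
  obtain ⟨e, he⟩ := IsPGroup.iff_card.mp hH
  have hcc : ∀ k, k ≤ 2 → cc H 3 k ≤ A3 2 k := by
    intro k hk
    have := hCNT 3 7 A3 Nat.prime_three hGDX.2 (Fin 6) H hH (by simp) k (by simpa using hk)
    simpa using this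
  have hc1 : cc H 3 1 ≤ 4 := hcc 1 (by norm_num)
  have hc2 : cc H 3 2 ≤ 4 := hcc 2 (by norm_num)
  have he2 : e ≤ 2 := by
    by_contra hlt
    have h27 : 27 ∣ 720 := by
      have : (3 : ℕ) ^ 3 ∣ 3 ^ e := pow_dvd_pow 3 (by omega)
      rw [← he] at this
      exact dvd_trans this hcard
    omega
  by_cases he1 : e ≤ 1
  · -- small subgroups
    have hH3 : Nat.card H ≤ 3 := by
      rw [he]
      calc 3 ^ e ≤ 3 ^ 1 := Nat.pow_le_pow_right (by norm_num) he1
        _ = 3 := by norm_num
    have hub := hUB 6 3 H Nat.prime_three hH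
    have hI : Finset.Icc 1 (6 / 3) = {1, 2} := by decide
    rw [hI, Finset.sum_pair (by norm_num)] at hub
    have hc12 : cc H 3 1 + cc H 3 2 ≤ 2 := by
      classical
      have h1 : cc H 3 1 = ((Finset.univ : Finset (Perm (Fin 6))).filter
          (fun y => y ∈ H ∧ y.cycleType = Multiset.replicate 1 3)).card := by
        rw [cc, Nat.card_eq_fintype_card, Fintype.card_subtype]
      have h2 : cc H 3 2 = ((Finset.univ : Finset (Perm (Fin 6))).filter
          (fun y => y ∈ H ∧ y.cycleType = Multiset.replicate 2 3)).card := by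
        rw [cc, Nat.card_eq_fintype_card, Fintype.card_subtype]
      have h3 : Nat.card H = ((Finset.univ : Finset (Perm (Fin 6))).filter (fun y => y ∈ H)).card := by
        rw [Nat.card_eq_fintype_card, ← Fintype.card_subtype]
      rw [h1, h2, ← Finset.card_union_of_disjoint]
      · have hsub : ((Finset.univ : Finset (Perm (Fin 6))).filter
            (fun y => y ∈ H ∧ y.cycleType = Multiset.replicate 1 3)) ∪
            ((Finset.univ : Finset (Perm (Fin 6))).filter
            (fun y => y ∈ H ∧ y.cycleType = Multiset.replicate 2 3)) ⊆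
            ((Finset.univ : Finset (Perm (Fin 6))).filter (fun y => y ∈ H)).erase 1 := by
          intro y hy
          rw [Finset.mem_erase]
          rcases Finset.mem_union.mp hy with h | h
          · obtain ⟨_, h4, h5⟩ := Finset.mem_filter.mp h
            refine ⟨?_, Finset.mem_filter.mpr ⟨Finset.mem_univ _, h4⟩⟩
            intro h6
            rw [h6, Perm.cycleType_one] at h5
            have := congrArg Multiset.card h5
            simp at this
          · obtain ⟨_, h4, h5⟩ := Finset.mem_filter.mp h
            refine ⟨?_, Finset.mem_filter.mpr ⟨Finset.mem_univ _, h4⟩⟩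
            intro h6
            rw [h6, Perm.cycleType_one] at h5
            have := congrArg Multiset.card h5
            simp at this
        refine (Finset.card_le_card hsub).trans ?_
        rw [Finset.card_erase_of_mem (Finset.mem_filter.mpr ⟨Finset.mem_univ _, H.one_mem⟩), ← h3]
        omega
      · rw [Finset.disjoint_left]
        intro y hy hy'
        have h4 := (Finset.mem_filter.mp hy).2.2
        have h5 := (Finset.mem_filter.mp hy').2.2
        rw [h4] at h5
        have := congrArg Multiset.card h5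
        simp at this
    have h1 : cc H 3 1 ≤ 2 := by omega
    have h2 : cc H 3 2 ≤ 2 - cc H 3 1 := by omega
    have hf1 : (6 - 3 * 1).factorial = 6 := by decide
    have hf2 : (6 - 3 * 2).factorial = 1 := by decide
    have hf3 : Nat.factorial 1 = 1 := rfl
    have hf4 : Nat.factorial 2 = 2 := rfl
    rw [hf1, hf2, hf3, hf4] at hub
    have hsq : (cc H 3 1) ^ 2 + (cc H 3 2) ^ 2 ≤ 4 := by
      generalize cc H 3 1 = a at *
      generalize cc H 3 2 = b at *
      nlinarith [Nat.zero_le (a * b)]
    have : 2 * bad H ≤ 18 * ((cc H 3 1) ^ 2 + (cc H 3 2) ^ 2) := by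
      calc 2 * bad H = (3 - 1) * bad H := by norm_num
        _ ≤ _ := hub
        _ = _ := by ring
    omega
  · -- order 9
    have he' : e = 2 := by omega
    have h9 : Nat.card H = 9 := by rw [he, he']; norm_num
    have hcm := IsPGroup.isMulCommutative_of_card_eq_prime_sq (p := 3) (G := H) (by rw [h9]; norm_num)
    have hcomm : ∀ a ∈ H, ∀ b ∈ H, a * b = b * a := by
      intro a ha b hb
      have := hcm.is_comm.comm (⟨a, ha⟩ : H) ⟨b, hb⟩
      exact congrArg Subtype.val this
    have hpow9 : ∀ a ∈ H, a ^ 9 = 1 := by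
      intro a ha
      have h1 := pow_card_eq_one' (x := (⟨a, ha⟩ : H))
      rw [h9] at h1
      exact congrArg Subtype.val h1
    have hord : ∀ a ∈ H, a ≠ 1 → ∃ n : ℕ, orderOf (a ^ n) = 3 := by
      intro a ha hne
      have h1 : orderOf a ∣ 3 ^ 2 := by
        rw [orderOf_dvd_iff_pow_eq_one]
        exact hpow9 a ha
      obtain ⟨j, hj, hj2⟩ := (Nat.dvd_prime_pow Nat.prime_three).mp h1
      have hj0 : j ≠ 0 := by
        intro h0
        rw [h0, pow_zero, orderOf_eq_one_iff] at hj2
        exact hne hj2
      refine ⟨orderOf a / 3, ?_⟩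
      apply orderOf_pow_orderOf_div
      · rw [hj2]
        positivity
      · rw [hj2]
        exact dvd_pow_self 3 hj0
    -- all elements of H are conjugated into H by a bad element
    have hbadH : ∀ x, Bad H x → ∀ h ∈ H, x * h * x⁻¹ ∈ H := by
      intro x hx h hh
      obtain ⟨y, hy, hy1, hxy⟩ := hx
      obtain ⟨n, hn⟩ := hord y hy hy1
      have hz : x * y ^ n * x⁻¹ ∈ H := by
        have h1 : x * y ^ n * x⁻¹ = (x * y * x⁻¹) ^ n := by
          rw [conj_pow]
        rw [h1]
        exact H.pow_mem hxy n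
      have hz3 : orderOf (x * y ^ n * x⁻¹) = 3 := by
        have h1 : orderOf (x * y ^ n * x⁻¹) = orderOf (y ^ n) := by
          have h2 := MulEquiv.orderOf_eq (MulAut.conj x) (y ^ n)
          rw [MulAut.conj_apply] at h2
          exact h2
        rw [h1, hn]
      apply s6_mem H h9 hcomm _ hz hz3
      · have h1 := hcomm h hh (y ^ n) (H.pow_mem hy n)
        calc x * h * x⁻¹ * (x * y ^ n * x⁻¹) = x * (h * y ^ n) * x⁻¹ := by group
          _ = x * (y ^ n * h) * x⁻¹ := by rw [h1]
          _ = x * y ^ n * x⁻¹ * (x * h * x⁻¹) := by group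
      · rw [conj_pow, hpow9 h hh]
        simp
    -- an element of order 3
    obtain ⟨y0, hy0⟩ := exists_prime_orderOf_dvd_card' (G := H) 3 (by rw [h9]; norm_num)
    have hy03 : orderOf (y0 : Perm (Fin 6)) = 3 := by
      rw [Subgroup.orderOf_coe, hy0]
    obtain ⟨k, hk1, hk2, hk⟩ := s6_type (y0 : Perm (Fin 6)) hy03
    have hcck : cc H 3 k ≤ 4 := by
      have : k = 1 ∨ k = 2 := by omega
      rcases this with h | h
      · rw [h]
        exact hc1
      · rw [h]
        exact hc2
    classical
    set B := (Finset.univ : Finset (Perm (Fin 6))).filter (fun x => Bad H x) with hB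
    set Z := (Finset.univ : Finset (Perm (Fin 6))).filter
      (fun y => y ∈ H ∧ y.cycleType = Multiset.replicate k 3) with hZ
    have hbB : bad H = B.card := by
      rw [bad, Nat.card_eq_fintype_card, Fintype.card_subtype]
    have hcZ : cc H 3 k = Z.card := by
      rw [cc, Nat.card_eq_fintype_card, Fintype.card_subtype]
    have hmaps : ∀ x ∈ B, x * (y0 : Perm (Fin 6)) * x⁻¹ ∈ Z := by
      intro x hx
      rw [hZ, Finset.mem_filter]
      refine ⟨Finset.mem_univ _, hbadH x (Finset.mem_filter.mp hx).2 _ y0.2, ?_⟩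
      rw [Perm.cycleType_conj, hk]
    have hfin := Finset.card_le_mul_card_image_of_maps_to hmaps 18 (by
      intro z _
      have h1 := s6_fib (y0 : Perm (Fin 6)) z hy03
      rw [Nat.card_eq_fintype_card, Fintype.card_subtype] at h1
      refine le_trans (Finset.card_le_card ?_) h1
      intro x hx
      rw [Finset.mem_filter] at hx ⊢
      exact ⟨Finset.mem_univ _, hx.2⟩)
    rw [hbB]
    calc B.card ≤ 18 * Z.card := hfin
      _ ≤ 18 * 4 := Nat.mul_le_mul_left _ (by rw [← hcZ]; exact hcck)
      _ = 72 := by norm_num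

end Pool.Agent.Helper2.SA
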