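import Pool.Agent.Helper17.SA.St3

/-! Module LOC of project SA (MP_21f9f3_al): the local count. -/

set_option autoImplicit false

namespace Pool.Agent.Helper2.SA

open Equiv Pool.Agent.Helper17.SA

theorem loc_odd (hBW : StBW) (p N m : ℕ) (R : ℕ → ℕ → ℕ) (hp : p.Prime) (hG : Good p N R)
    (hN : m / p ≤ N) (H : Subgroup (Perm (Fin m))) (hH : IsPGroup p H) :
    bad H ≤ W R p m / (p - 1) := by
  have h := hBW.1 p N m R H hp hG hN hH
  have h2 := hp.two_le
  rw [Nat.le_div_iff_mul_le (by omega)]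
  rw [mul_comm]
  exact h

theorem loc_cert (hSYL : StSYL) (hCM : StCM2) (m v : ℕ)
    (hm : m = 7 ∨ m = 9 ∨ m = 10 ∨ m = 12) (hv : padicValNat 2 m.factorial = v)
    (P : Sylow 2 (Perm (Fin m))) :
    need2 m * 4 ^ v + bad (P : Subgroup (Perm (Fin m))) ≤ m.factorial := by
  obtain ⟨_, h2, h3⟩ := hSYL m P
  have h := hCM m hm
  rw [h2, hv, ← h3] at h
  have e : (2 ^ v) ^ 2 = 4 ^ v := by
    rw [← pow_mul, mul_comm, pow_mul]
    norm_num
  rw [e] at h
  exact h

theorem loc_second (hUB2 : StUB2) (hTRN : StTRN) (hCNT : StCNT) (hGDX : StGDX) (m : ℕ)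
    (hm : 4 ≤ m) (hm2 : m / 2 ≤ 10) (P : Sylow 2 (Perm (Fin m))) :
    bad (P : Subgroup (Perm (Fin m))) + (m / 2 * (m / 2 - 1)) ^ 2 * 4 * (m - 4).factorial ≤
      W A2 2 m := by
  have h := hUB2 m (P : Subgroup (Perm (Fin m))) hm P.2
  have ht := hTRN m P
  have h1 : (m / 2 * (m / 2 - 1)) ^ 2 * 4 * (m - 4).factorial ≤
      (cc (P : Subgroup (Perm (Fin m))) 2 1 * (cc (P : Subgroup (Perm (Fin m))) 2 1 - 1)) ^ 2 * 4 *
        (m - 4).factorial := by
    have : m / 2 - 1 ≤ cc (P : Subgroup (Perm (Fin m))) 2 1 - 1 := by omega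
    gcongr
  have h2 : ∑ k ∈ Finset.Icc 1 (m / 2), (cc (P : Subgroup (Perm (Fin m))) 2 k) ^ 2 *
      (m - 2 * k).factorial * 2 ^ k * k.factorial ≤ W A2 2 m := by
    unfold W
    apply Finset.sum_le_sum
    intro k hk
    have hk2 := (Finset.mem_Icc.1 hk).2
    have hc := hCNT 2 10 A2 Nat.prime_two hGDX.1 (Fin m) (P : Subgroup (Perm (Fin m))) P.2
      (by rw [Fintype.card_fin]; exact hm2) k (by rw [Fintype.card_fin]; exact hk2)
    rw [Fintype.card_fin] at hc
    gcongr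
  omega

theorem loc_sq (q : ℕ) (hq : 3 ≤ q) : q ^ 2 ≤ 3 ^ (q - 1) := by
  induction q, hq using Nat.le_induction with
  | base => norm_num
  | succ q hq ih =>
    have e : q + 1 - 1 = (q - 1) + 1 := by omega
    rw [e, pow_succ 3]
    nlinarith

/-- Legendre -/
theorem loc_leg (m q : ℕ) (hq : q.Prime) (hm : 1 ≤ m) :
    (q - 1) * padicValNat q m.factorial ≤ m - 1 := by
  have : Fact q.Prime := ⟨hq⟩
  rw [sub_one_mul_padicValNat_factorial]
  have h1 : 1 ≤ (Nat.digits q m).sum := by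
    by_contra h
    have h0 : (Nat.digits q m).sum = 0 := by omega
    have h2 : ∀ x ∈ Nat.digits q m, x = 0 := by
      intro x hx
      have := List.single_le_sum (fun y _ => Nat.zero_le y) x hx
      omega
    have h3 := Nat.getLast_digit_ne_zero q (m := m) (by omega)
    exact h3 (h2 _ (List.getLast_mem _))
  omega

theorem loc_card (m q : ℕ) (hq : q.Prime) (P : Sylow q (Perm (Fin m))) :
    Nat.card (P : Subgroup (Perm (Fin m))) = q ^ padicValNat q m.factorial := by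
  have : Fact q.Prime := ⟨hq⟩
  have h1 := P.card_eq_multiplicity
  rw [Nat.card_eq_fintype_card (α := Perm (Fin m)), Fintype.card_perm, Fintype.card_fin,
    Nat.factorization_def _ hq] at h1
  exact h1

theorem loc_size (m q : ℕ) (hq : q.Prime) (hm : 1 ≤ m) (P : Sylow q (Perm (Fin m))) :
    (Nat.card (P : Subgroup (Perm (Fin m)))) ^ 2 = 4 ^ padicValNat 2 m.factorial ∨
      (Nat.card (P : Subgroup (Perm (Fin m)))) ^ 2 ≤ 3 ^ (m - 1) := by
  rw [loc_card m q hq P]
  rcases hq.eq_two_or_odd with h | h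
  · left
    rw [h, ← pow_mul, mul_comm, pow_mul]
    norm_num
  · right
    have h3 : 3 ≤ q := by
      have := hq.two_le
      omega
    rw [← pow_mul, mul_comm, pow_mul]
    calc (q ^ 2) ^ padicValNat q m.factorial ≤ (3 ^ (q - 1)) ^ padicValNat q m.factorial :=
          Nat.pow_le_pow_left (loc_sq q h3) _
      _ = 3 ^ ((q - 1) * padicValNat q m.factorial) := (pow_mul _ _ _).symm
      _ ≤ 3 ^ (m - 1) := Nat.pow_le_pow_right (by norm_num) (loc_leg m q hq hm)

theorem loc_size' (m q : ℕ) (hq : q.Prime) (hm : 1 ≤ m) (P : Sylow q (Perm (Fin m))) :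
    (Nat.card (P : Subgroup (Perm (Fin m)))) ^ 2 ≤ 4 ^ (m - 1) := by
  rcases loc_size m q hq hm P with h | h
  · rw [h]
    have := loc_leg m 2 Nat.prime_two hm
    exact Nat.pow_le_pow_right (by norm_num) (by omega)
  · exact h.trans (Nat.pow_le_pow_left (by norm_num) _)

theorem loc_fac (m : ℕ) (hm : 13 ≤ m) : 200 * 4 ^ (m - 1) ≤ m.factorial := by
  induction m, hm using Nat.le_induction with
  | base => decide
  | succ m hm ih =>
    have e : m + 1 - 1 = (m - 1) + 1 := by omega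
    rw [e, pow_succ, Nat.factorial_succ]
    nlinarith

theorem loc_two {m : ℕ} {b2 : ℕ}
    (h : ∀ P : Sylow 2 (Perm (Fin m)), bad (P : Subgroup (Perm (Fin m))) ≤ b2) (q : ℕ)
    (hq : q = 2) (P : Sylow q (Perm (Fin m))) : bad (P : Subgroup (Perm (Fin m))) ≤ b2 := by
  subst hq
  exact h P

theorem pLOC : StBW → StUB2 → StTRN → StCNT → StGDT → StGDX → StSYL → StTOT → StCM2 → StAN2 →
    StAN3 → StA57 → StNM2 → StNSM → StNS2 → StLOC := by
  intro hBW hUB2 hTRN hCNT hGDT hGDX hSYL hTOT hCM hAN2 hAN3 hA57 hNM2 hNSM hNS2 m hm ι _ p P hp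
    hinj j
  obtain ⟨n1, n2, ⟨s7, s7'⟩, ⟨s9, s9'⟩, ⟨s10, s10'⟩, s12, v7⟩ := hNS2
  obtain ⟨-, -, -, -, -, ⟨-, -, v9, v10, v12⟩⟩ := hNSM
  have p7 : Nat.Prime 7 := by norm_num
  have H5 : ∀ H : Subgroup (Perm (Fin m)), IsPGroup 5 H → bad H ≤ W (RT 5) 5 m / 4 :=
    fun H hH => loc_odd hBW 5 (m / 5) m (RT 5) Nat.prime_five (hGDT 5 _ Nat.prime_five) le_rfl H hH
  have H7 : ∀ H : Subgroup (Perm (Fin m)), IsPGroup 7 H → bad H ≤ W (RT 7) 7 m / 6 :=
    fun H hH => loc_odd hBW 7 (m / 7) m (RT 7) p7 (hGDT 7 _ p7) le_rfl H hH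
  have H3 : m ≤ 21 → ∀ H : Subgroup (Perm (Fin m)), IsPGroup 3 H → bad H ≤ W A3 3 m / 2 :=
    fun h21 H hH => loc_odd hBW 3 7 m A3 Nat.prime_three hGDX.2 (by omega) H hH
  have H3' : ∀ H : Subgroup (Perm (Fin m)), IsPGroup 3 H → bad H ≤ W (RT 3) 3 m / 2 :=
    fun H hH => loc_odd hBW 3 (m / 3) m (RT 3) Nat.prime_three (hGDT 3 _ Nat.prime_three) le_rfl H hH
  have H2 : m ≤ 21 → ∀ P : Sylow 2 (Perm (Fin m)),
      bad (P : Subgroup (Perm (Fin m))) ≤ W A2 2 m := by
    intro h21 P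
    have := hBW.1 2 10 m A2 (P : Subgroup (Perm (Fin m))) Nat.prime_two hGDX.1 (by omega) P.2
    omega
  have H2' : ∀ P : Sylow 2 (Perm (Fin m)),
      bad (P : Subgroup (Perm (Fin m))) ≤ W (RT 2) 2 m := by
    intro P
    have := hBW.1 2 (m / 2) m (RT 2) (P : Subgroup (Perm (Fin m))) Nat.prime_two
      (hGDT 2 _ Nat.prime_two) le_rfl P.2
    omega
  have fin : ∀ b2 b3 b5 b7 : ℕ,
      (∀ P : Sylow 2 (Perm (Fin m)), bad (P : Subgroup (Perm (Fin m))) ≤ b2) →
      (∀ H : Subgroup (Perm (Fin m)), IsPGroup 3 H → bad H ≤ b3) →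
      (∀ H : Subgroup (Perm (Fin m)), IsPGroup 5 H → bad H ≤ b5) →
      (∀ H : Subgroup (Perm (Fin m)), IsPGroup 7 H → bad H ≤ b7) →
      ∑ i, bad (P i : Subgroup (Perm (Fin m))) ≤ b2 + b3 + b5 + b7 + m.factorial / 10000 := by
    intro b2 b3 b5 b7 g2 g3 g5 g7
    refine hTOT m ι p (fun i => (P i : Subgroup (Perm (Fin m)))) b2 b3 b5 b7 hp hinj
      (fun i => (P i).2) (fun i hi => loc_two g2 (p i) hi (P i)) (fun i hi => g3 _ ?_)
      (fun i hi => g5 _ ?_) (fun i hi => g7 _ ?_)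
    · exact hi ▸ (P i).2
    · exact hi ▸ (P i).2
    · exact hi ▸ (P i).2
  have hsz := loc_size m (p j) (hp j) (by omega) (P j)
  have hsz' := loc_size' m (p j) (hp j) (by omega) (P j)
  obtain ⟨X, hX⟩ : ∃ X, X = (Nat.card (P j : Subgroup (Perm (Fin m)))) ^ 2 := ⟨_, rfl⟩
  obtain ⟨sm, hsm⟩ : ∃ s, s = ∑ i, bad (P i : Subgroup (Perm (Fin m))) := ⟨_, rfl⟩
  rw [← hX] at hsz hsz' ⊢
  rw [← hsm] at fin ⊢
  obtain ⟨P0⟩ : Nonempty (Sylow 2 (Perm (Fin m))) := inferInstance
  by_cases hc : m = 7 ∨ m = 9 ∨ m = 10 ∨ m = 12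
  · -- certificates
    obtain ⟨v, hv, ho⟩ : ∃ v, padicValNat 2 m.factorial = v ∧
        odds m + 2 * X < need2 m * 4 ^ v := by
      rcases hc with rfl | rfl | rfl | rfl
      · refine ⟨4, v7, ?_⟩
        have : need2 7 = 9 := by decide
        rw [this]
        rw [v7] at hsz
        rcases hsz with h | h
        · rw [h]
          exact s7
        · have : (3 : ℕ) ^ (7 - 1) = 3 ^ 6 := rfl
          omega
      · refine ⟨7, v9, ?_⟩
        have : need2 9 = 9 := by decide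
        rw [this]
        rw [v9] at hsz
        rcases hsz with h | h
        · rw [h]
          exact s9
        · have : (3 : ℕ) ^ (9 - 1) = 3 ^ 8 := rfl
          omega
      · refine ⟨8, v10, ?_⟩
        have : need2 10 = 18 := by decide
        rw [this]
        rw [v10] at hsz
        rcases hsz with h | h
        · rw [h]
          exact s10
        · have : (3 : ℕ) ^ (10 - 1) = 3 ^ 9 := rfl
          omega
      · refine ⟨10, v12, ?_⟩
        have : need2 12 = 50 := by decide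
        rw [this]
        have : (4 : ℕ) ^ (12 - 1) = 4 ^ 11 := rfl
        omega
    have hQ := fun P => loc_cert hSYL hCM m v hc hv P
    have hle : need2 m * 4 ^ v ≤ m.factorial := le_trans (Nat.le_add_right _ _) (hQ P0)
    unfold odds at ho
    have hf := fin (m.factorial - need2 m * 4 ^ v) (W A3 3 m / 2) (W (RT 5) 5 m / 4)
      (W (RT 7) 7 m / 6) (fun P => by
        have := hQ P
        omega) (H3 (by omega)) H5 H7
    omega
  by_cases hs : m = 14 ∨ m = 16
  · have hQ := fun P => loc_second hUB2 hTRN hCNT hGDX m (by omega) (by omega) P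
    have hn := n2 m hs
    unfold odds at hn
    have hle := le_trans (Nat.le_add_left _ _) (hQ P0)
    have hf := fin (W A2 2 m - (m / 2 * (m / 2 - 1)) ^ 2 * 4 * (m - 4).factorial) (W A3 3 m / 2)
      (W (RT 5) 5 m / 4) (W (RT 7) 7 m / 6) (fun P => by
        have := hQ P
        generalize (m / 2 * (m / 2 - 1)) ^ 2 * 4 * (m - 4).factorial = y at *
        omega) (H3 (by omega)) H5 H7
    generalize (m / 2 * (m / 2 - 1)) ^ 2 * 4 * (m - 4).factorial = y at *
    omega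
  by_cases h21 : m ≤ 21
  · have hn := n1 m (by omega)
    unfold odds at hn
    have hf := fin (W A2 2 m) (W A3 3 m / 2) (W (RT 5) 5 m / 4) (W (RT 7) 7 m / 6)
      (fun P => H2 h21 P) (H3 h21) H5 H7
    omega
  have hf := fin (W (RT 2) 2 m) (W (RT 3) 3 m / 2) (W (RT 5) 5 m / 4) (W (RT 7) 7 m / 6)
    (fun P => H2' P) H3' H5 H7
  by_cases h150 : m < 150
  · have := hNM2 m (by omega) h150
    omega
  · have h150' : 150 ≤ m := by omega
    have a2 := hAN2 m h150'
    have a3 := hAN3 m h150'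
    have a5 := hA57.1 m h150'
    have a7 := hA57.2.1 m
    have hpos := m.factorial_pos
    have hfa := loc_fac m (by omega)
    omega

end Pool.Agent.Helper2.SA
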